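import Pool.Agent.H84.FK.Targets

/-!
Module C4 of the board fk_modules: the orders of the groups of a least counterexample.
-/

set_option autoImplicit false

namespace Pool.Agent.H14.FK

open Pool.Agent.H84.FK

/-- the orders in a least counterexample -/
theorem pf_c4 (hITS : T_ITS) (hC3 : T_C3) : T_C4 := by
  intro G _ A B B0 hCE
  have hfin : Finite G := hCE.fin
  have ht : ∃ t ∈ B, t ∉ B0 := by
    by_contra hcon
    push Not at hcon
    exact hCE.ns (hITS G A B hCE.fac hCE.abA
      fun x hx y hy => hCE.abB x (hcon x hx) y (hcon y hy))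
  have hle : B0 ≤ B := hCE.two.1
  have hcardB : Nat.card B = 2 * Nat.card B0 := by
    obtain ⟨t, htB, ht0⟩ := ht
    let f : B0 ⊕ B0 → B :=
      Sum.elim (fun x => ⟨x.1, hle x.2⟩) (fun x => ⟨t * x.1, B.mul_mem htB (hle x.2)⟩)
    have hf : Function.Bijective f := by
      constructor
      · rintro (x | x) (y | y) hxy
        · have := congrArg Subtype.val hxy
          simp only [f, Sum.elim_inl] at this
          rw [Sum.inl.injEq]
          exact Subtype.ext this
        · exfalso
          have := congrArg Subtype.val hxy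
          simp only [f, Sum.elim_inl, Sum.elim_inr] at this
          apply ht0
          have h1 : t = x.1 * y.1⁻¹ := by rw [this, mul_inv_cancel_right]
          rw [h1]
          exact B0.mul_mem x.2 (B0.inv_mem y.2)
        · exfalso
          have := congrArg Subtype.val hxy
          simp only [f, Sum.elim_inl, Sum.elim_inr] at this
          apply ht0
          have h1 : t = y.1 * x.1⁻¹ := by rw [← this, mul_inv_cancel_right]
          rw [h1]
          exact B0.mul_mem y.2 (B0.inv_mem x.2)
        · have := congrArg Subtype.val hxy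
          simp only [f, Sum.elim_inr] at this
          rw [Sum.inr.injEq]
          exact Subtype.ext (mul_left_cancel this)
      · intro b
        by_cases hb : b.1 ∈ B0
        · exact ⟨Sum.inl ⟨b.1, hb⟩, rfl⟩
        · have h1 : t⁻¹ ∉ B0 := fun h => ht0 (by simpa using B0.inv_mem h)
          have h2 : t⁻¹ * b.1 ∈ B0 := hCE.two.2 _ (B.inv_mem htB) _ b.2 h1 hb
          refine ⟨Sum.inr ⟨t⁻¹ * b.1, h2⟩, ?_⟩
          apply Subtype.ext
          simp [f]
    rw [← Nat.card_congr (Equiv.ofBijective f hf), Nat.card_sum]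
    ring
  refine ⟨ht, hcardB, ?_⟩
  have hcardG : Nat.card G = Nat.card A * Nat.card B := by
    let f : A × B → G := fun x => x.1.1 * x.2.1
    have hf : Function.Bijective f := by
      constructor
      · rintro ⟨a, b⟩ ⟨a', b'⟩ h
        change a.1 * b.1 = a'.1 * b'.1 at h
        have h1 : a'.1⁻¹ * a.1 = 1 * (b'.1 * b.1⁻¹) * 1⁻¹ := by
          rw [one_mul, inv_one, mul_one, eq_mul_inv_iff_mul_eq, mul_assoc, h,
            inv_mul_cancel_left]
        have h2 := hC3 G A B B0 hCE 1 _ _ (A.mul_mem (A.inv_mem a'.2) a.2)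
          (B.mul_mem b'.2 (B.inv_mem b.2)) h1
        have h3 : a.1 = a'.1 := (inv_mul_eq_one.1 h2).symm
        have h4 : b.1 = b'.1 := by
          rw [h3] at h
          exact mul_left_cancel h
        exact Prod.ext (Subtype.ext h3) (Subtype.ext h4)
      · intro g
        obtain ⟨a, ha, b, hb, rfl⟩ := hCE.fac g
        exact ⟨(⟨a, ha⟩, ⟨b, hb⟩), rfl⟩
    rw [← Nat.card_congr (Equiv.ofBijective f hf), Nat.card_prod]
  rw [hcardG, hcardB]
  ring

end Pool.Agent.H14.FK
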