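import Pool.Agent.H84.FK.Targets

/-!
Module F1 of the board fk_modules: the theorem from the non-existence of a least counterexample.
-/

set_option autoImplicit false

namespace Pool.Agent.H14.FK

open Pool.Agent.H84.FK

theorem f1_aux (hNOCE : T_NOCE) : ∀ (n : ℕ) (G : Type) [Group G] [Finite G]
    (A B B0 : Subgroup G), Nat.card G = n → Fac A B → Ab A → Ab B0 → Two B B0 →
    Group.IsSolvable G := by
  intro n
  induction n using Nat.strong_induction_on with
  | _ n ih =>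
  intro G _ _ A B B0 hn hF hA hB0 hT
  by_contra hns
  refine hNOCE G A B B0 ⟨inferInstance, hF, hA, hB0, hT, hns, ?_, ?_⟩
  · intro L hL hLF
    have hlt : Nat.card L < n := by
      rw [← hn]
      refine lt_of_le_of_ne (Subgroup.card_le_card_group L) fun h => hL ?_
      exact Subgroup.eq_top_of_card_eq L h
    refine ih _ hlt L (A.subgroupOf L) (B.subgroupOf L) (B0.subgroupOf L) rfl ?_ ?_ ?_ ?_
    · intro g
      obtain ⟨a, ha, haL, b, hb, hbL, hg⟩ := hLF g.1 g.2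
      exact ⟨⟨a, haL⟩, ha, ⟨b, hbL⟩, hb, Subtype.ext hg⟩
    · intro x hx y hy
      exact Subtype.ext (hA x.1 hx y.1 hy)
    · intro x hx y hy
      exact Subtype.ext (hB0 x.1 hx y.1 hy)
    · exact ⟨fun x hx => hT.1 hx, fun x hx y hy hx0 hy0 => hT.2 x.1 hx y.1 hy hx0 hy0⟩
  · intro N hN hNs
    by_contra hNb
    apply hns
    have hlt : Nat.card (G ⧸ N) < n := by
      rw [← hn, ← Subgroup.card_mul_index N, Subgroup.index]
      have h1 : 1 < Nat.card N := by
        rcases Nat.lt_or_ge 1 (Nat.card N) with h | h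
        · exact h
        · exact absurd (Subgroup.eq_bot_of_card_le N h) hNb
      have h2 : 0 < Nat.card (G ⧸ N) := Nat.card_pos
      nlinarith
    have hq : Group.IsSolvable (G ⧸ N) := by
      refine ih _ hlt (G ⧸ N) (A.map (QuotientGroup.mk' N)) (B.map (QuotientGroup.mk' N))
        (B0.map (QuotientGroup.mk' N)) rfl ?_ ?_ ?_ ?_
      · intro g
        obtain ⟨g, rfl⟩ := QuotientGroup.mk'_surjective N g
        obtain ⟨a, ha, b, hb, rfl⟩ := hF g
        exact ⟨_, ⟨a, ha, rfl⟩, _, ⟨b, hb, rfl⟩, map_mul _ _ _⟩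
      · rintro _ ⟨x, hx, rfl⟩ _ ⟨y, hy, rfl⟩
        rw [← map_mul, ← map_mul, hA x hx y hy]
      · rintro _ ⟨x, hx, rfl⟩ _ ⟨y, hy, rfl⟩
        rw [← map_mul, ← map_mul, hB0 x hx y hy]
      · refine ⟨Subgroup.map_mono hT.1, ?_⟩
        rintro _ ⟨x, hx, rfl⟩ _ ⟨y, hy, rfl⟩ hx0 hy0
        refine ⟨x * y, hT.2 x hx y hy (fun h => hx0 ⟨x, h, rfl⟩) (fun h => hy0 ⟨y, h, rfl⟩),
          map_mul _ _ _⟩
    exact (Group.isSolvable_iff_subgroup_quotient N).2 ⟨hNs, hq⟩

/-- THEOREM F1 -/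
theorem pf_f1 (hNOCE : T_NOCE) : T_F1 := by
  intro G _ _ A B B0 hF hA hB0 hT
  exact f1_aux hNOCE _ G A B B0 rfl hF hA hB0 hT

end Pool.Agent.H14.FK
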