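import Pool.Agent.H84.FK.Targets

/-!
Module ITO of the board fk_modules: the theorem of Ito on products of two abelian subgroups.
-/

set_option autoImplicit false

namespace Pool.Agent.H14.FK

open Pool.Agent.H84.FK
open scoped commutatorElement

variable {G : Type} [Group G]

/-- the commutator `x⁻¹ y⁻¹ x y` -/
def cc (x y : G) : G := x⁻¹ * y⁻¹ * x * y

theorem cc_conj (x y z : G) : z⁻¹ * cc x y * z = cc (z⁻¹ * x * z) (z⁻¹ * y * z) := by
  unfold cc; group

theorem cc_mul_right {a a2 b : G} (h : a * a2 = a2 * a) : cc a (a2 * b) = cc a b := by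
  have h' : a2⁻¹ * a * a2 = a := by rw [mul_assoc, h, inv_mul_cancel_left]
  calc cc a (a2 * b) = a⁻¹ * b⁻¹ * (a2⁻¹ * a * a2) * b := by unfold cc; group
    _ = cc a b := by rw [h']; rfl

theorem cc_mul_left {b b3 a : G} (h : b3 * b = b * b3) : cc (b3 * a) b = cc a b := by
  have h' : b3⁻¹ * b⁻¹ * b3 = b⁻¹ := by
    have : b⁻¹ * b3 = b3 * b⁻¹ := by
      rw [inv_mul_eq_iff_eq_mul, ← mul_assoc, ← h, mul_inv_cancel_right]
    rw [mul_assoc, this, inv_mul_cancel_left]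
  calc cc (b3 * a) b = a⁻¹ * (b3⁻¹ * b⁻¹ * b3) * a * b := by unfold cc; group
    _ = cc a b := by rw [h']; rfl

/-- conjugation by an element of `A` -/
theorem conjA {A B : Subgroup G} (hF : Fac A B) (hA : Ab A) {b a1 : G}
    (_hb : b ∈ B) (ha1 : a1 ∈ A) : ∃ b2 ∈ B, ∀ a ∈ A, a1⁻¹ * cc a b * a1 = cc a b2 := by
  obtain ⟨a2, ha2, b2, hb2, h⟩ := hF (a1⁻¹ * b * a1)
  refine ⟨b2, hb2, fun a ha => ?_⟩
  have h1 : a1⁻¹ * a * a1 = a := by rw [mul_assoc, hA a ha a1 ha1, inv_mul_cancel_left]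
  rw [cc_conj, h1, h, cc_mul_right (hA a ha a2 ha2)]

/-- conjugation by an element of `B` -/
theorem conjB {A B : Subgroup G} (hF : Fac A B) (hB : Ab B) {a b1 : G}
    (_ha : a ∈ A) (hb1 : b1 ∈ B) : ∃ a3 ∈ A, ∀ b ∈ B, b1⁻¹ * cc a b * b1 = cc a3 b := by
  obtain ⟨a4, ha4, b4, hb4, h⟩ := hF (b1⁻¹ * a * b1)⁻¹
  have h' : b1⁻¹ * a * b1 = b4⁻¹ * a4⁻¹ := by
    rw [← mul_inv_rev, ← h, inv_inv]
  refine ⟨a4⁻¹, A.inv_mem ha4, fun b hb => ?_⟩
  have h1 : b1⁻¹ * b * b1 = b := by rw [mul_assoc, hB b hb b1 hb1, inv_mul_cancel_left]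
  rw [cc_conj, h1, h', cc_mul_left (hB _ (B.inv_mem hb4) b hb)]

/-- the two orders of conjugation agree -/
theorem conj_comm {A B : Subgroup G} (hF : Fac A B) (hA : Ab A) (hB : Ab B) {a b a1 b1 : G}
    (ha : a ∈ A) (hb : b ∈ B) (ha1 : a1 ∈ A) (hb1 : b1 ∈ B) :
    b1⁻¹ * (a1⁻¹ * cc a b * a1) * b1 = a1⁻¹ * (b1⁻¹ * cc a b * b1) * a1 := by
  obtain ⟨b2, hb2, h2⟩ := conjA hF hA hb ha1
  obtain ⟨a3, ha3, h3⟩ := conjB hF hB ha hb1
  rw [h2 a ha, h3 b2 hb2, h3 b hb, h2 a3 ha3]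

/-- the commutators commute -/
theorem cc_comm {A B : Subgroup G} (hF : Fac A B) (hA : Ab A) (hB : Ab B) {a b a' b' : G}
    (ha : a ∈ A) (hb : b ∈ B) (ha' : a' ∈ A) (hb' : b' ∈ B) :
    cc a b * cc a' b' = cc a' b' * cc a b := by
  have h := conj_comm hF hA hB ha hb (A.inv_mem ha') (B.inv_mem hb')
  rw [inv_inv, inv_inv] at h
  -- `h : b' (a' u a'⁻¹) b'⁻¹ = a' (b' u b'⁻¹) a'⁻¹`
  have h1 : cc a b = (a'⁻¹ * b'⁻¹ * a' * b') * cc a b * (b'⁻¹ * a'⁻¹ * b' * a') := by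
    calc cc a b = a'⁻¹ * b'⁻¹ * (b' * (a' * cc a b * a'⁻¹) * b'⁻¹) * b' * a' := by group
      _ = a'⁻¹ * b'⁻¹ * (a' * (b' * cc a b * b'⁻¹) * a'⁻¹) * b' * a' := by rw [h]
      _ = _ := by group
  have h2 : cc a b * (a'⁻¹ * b'⁻¹ * a' * b') = (a'⁻¹ * b'⁻¹ * a' * b') * cc a b := by
    calc cc a b * (a'⁻¹ * b'⁻¹ * a' * b')
        = ((a'⁻¹ * b'⁻¹ * a' * b') * cc a b * (b'⁻¹ * a'⁻¹ * b' * a')) *
          (a'⁻¹ * b'⁻¹ * a' * b') := by rw [← h1]
      _ = _ := by group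
  exact h2

/-- the set of the commutators -/
def CS (A B : Subgroup G) : Set G := {x | ∃ a ∈ A, ∃ b ∈ B, x = cc a b}

theorem closure_conj {S : Set G} {z : G} (h : ∀ x ∈ S, z⁻¹ * x * z ∈ S) (x : G)
    (hx : x ∈ Subgroup.closure S) : z⁻¹ * x * z ∈ Subgroup.closure S := by
  induction hx using Subgroup.closure_induction with
  | mem x hx => exact Subgroup.subset_closure (h x hx)
  | one => simp
  | mul x y _ _ hx hy =>
    have : z⁻¹ * (x * y) * z = (z⁻¹ * x * z) * (z⁻¹ * y * z) := by group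
    rw [this]
    exact mul_mem hx hy
  | inv x _ hx =>
    have : z⁻¹ * x⁻¹ * z = (z⁻¹ * x * z)⁻¹ := by group
    rw [this]
    exact inv_mem hx

/-- the theorem of Ito -/
theorem pf_ito : T_ITO := by
  intro G _ A B hF hA hB
  set W : Subgroup G := Subgroup.closure (CS A B) with hW
  have hnorm : ∀ g : G, ∀ x ∈ W, g⁻¹ * x * g ∈ W := by
    intro g x hx
    obtain ⟨a1, ha1, b1, hb1, rfl⟩ := hF g
    have h1 : ∀ y ∈ CS A B, a1⁻¹ * y * a1 ∈ CS A B := by
      rintro _ ⟨a, ha, b, hb, rfl⟩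
      obtain ⟨b2, hb2, h2⟩ := conjA hF hA hb ha1
      exact ⟨a, ha, b2, hb2, h2 a ha⟩
    have h2 : ∀ y ∈ CS A B, b1⁻¹ * y * b1 ∈ CS A B := by
      rintro _ ⟨a, ha, b, hb, rfl⟩
      obtain ⟨a3, ha3, h3⟩ := conjB hF hB ha hb1
      exact ⟨a3, ha3, b, hb, h3 b hb⟩
    have h3 := closure_conj h2 _ (closure_conj h1 x hx)
    have h4 : (a1 * b1)⁻¹ * x * (a1 * b1) = b1⁻¹ * (a1⁻¹ * x * a1) * b1 := by group
    rw [h4]
    exact h3
  have hN : W.Normal := ⟨fun x hx g => by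
    have := hnorm g⁻¹ x hx
    rwa [inv_inv] at this⟩
  have hcomm : ∀ x ∈ CS A B, ∀ y ∈ CS A B, x * y = y * x := by
    rintro _ ⟨a, ha, b, hb, rfl⟩ _ ⟨a', ha', b', hb', rfl⟩
    exact cc_comm hF hA hB ha hb ha' hb'
  have hWab : ∀ x ∈ W, ∀ y ∈ W, x * y = y * x := by
    have h1 : ∀ x ∈ CS A B, ∀ y ∈ W, x * y = y * x := by
      intro x hx y hy
      induction hy using Subgroup.closure_induction with
      | mem y hy => exact hcomm x hx y hy
      | one => simp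
      | mul y z _ _ hy hz => exact (Commute.mul_right hy hz : Commute x (y * z))
      | inv y _ hy => exact (Commute.inv_right hy : Commute x y⁻¹)
    intro x hx y hy
    induction hx using Subgroup.closure_induction with
    | mem x hx => exact h1 x hx y hy
    | one => simp
    | mul x z _ _ hx hz => exact (Commute.mul_left hx hz : Commute (x * z) y)
    | inv x _ hx => exact (Commute.inv_left hx : Commute x⁻¹ y)
  have hle : commutator G ≤ W := by
    have hq : ∀ a ∈ A, ∀ b ∈ B, Commute (QuotientGroup.mk' W a) (QuotientGroup.mk' W b) := by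
      intro a ha b hb
      have h1 : QuotientGroup.mk' W (cc a b) = 1 := by
        rw [QuotientGroup.mk'_apply, QuotientGroup.eq_one_iff]
        exact Subgroup.subset_closure ⟨a, ha, b, hb, rfl⟩
      unfold cc at h1
      rw [map_mul, map_mul, map_mul, map_inv, map_inv] at h1
      have h2 := congrArg (fun u => QuotientGroup.mk' W b * (QuotientGroup.mk' W a * u)) h1
      simp only [mul_one] at h2
      change _ * _ = _ * _
      rw [← h2]
      group
    have hab : ∀ a ∈ A, ∀ a' ∈ A, Commute (QuotientGroup.mk' W a) (QuotientGroup.mk' W a') := by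
      intro a ha a' ha'
      change _ * _ = _ * _
      rw [← map_mul, ← map_mul, hA a ha a' ha']
    have hbb : ∀ b ∈ B, ∀ b' ∈ B, Commute (QuotientGroup.mk' W b) (QuotientGroup.mk' W b') := by
      intro a ha a' ha'
      change _ * _ = _ * _
      rw [← map_mul, ← map_mul, hB a ha a' ha']
    rw [commutator_def, Subgroup.commutator_le]
    intro g _ h _
    obtain ⟨a, ha, b, hb, rfl⟩ := hF g
    obtain ⟨a', ha', b', hb', rfl⟩ := hF h
    have hc : Commute (QuotientGroup.mk' W (a * b)) (QuotientGroup.mk' W (a' * b')) := by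
      rw [map_mul, map_mul]
      exact ((hab a ha a' ha').mul_right (hq a ha b' hb')).mul_left
        ((hq a' ha' b hb).symm.mul_right (hbb b hb b' hb'))
    have h5 : QuotientGroup.mk' W ⁅a * b, a' * b'⁆ = 1 := by
      rw [map_commutatorElement, commutatorElement_eq_one_iff_commute]
      exact hc
    rwa [QuotientGroup.mk'_apply, QuotientGroup.eq_one_iff] at h5
  intro x hx y hy
  exact hWab x (hle hx) y (hle hy)

end Pool.Agent.H14.FK
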