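import Pool.Agent.H84.FK.Targets

/-!
Module ITS of the board fk_modules: products of two abelian subgroups are soluble.
-/

set_option autoImplicit false

namespace Pool.Agent.H14.FK

open Pool.Agent.H84.FK

/-- a product of two abelian subgroups is soluble -/
theorem pf_its (hITO : T_ITO) : T_ITS := by
  intro G _ A B hF hA hB
  have h := hITO G A B hF hA hB
  rw [Group.isSolvable_iff_subgroup_quotient (commutator G)]
  constructor
  · refine Group.isSolvable_of_comm fun a b => ?_
    exact Subtype.ext (h a.1 a.2 b.1 b.2)
  · change Group.IsSolvable (Abelianization G)
    infer_instance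

end Pool.Agent.H14.FK
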