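import Pool.Agent.H84.FK.Targets

/-!
Module KG of the board fk_modules: no odd prime divides both orders (Kegel's argument).
-/

set_option autoImplicit false

namespace Pool.Agent.H14.FK

open Pool.Agent.H84.FK

/-- the elements of `p`-power order of an abelian subgroup -/
def pPart {G : Type} [Group G] (H : Subgroup G) (hH : Ab H) (p : ℕ) : Subgroup G where
  carrier := {x | x ∈ H ∧ ∃ k : ℕ, x ^ p ^ k = 1}
  one_mem' := ⟨H.one_mem, 0, by simp⟩
  mul_mem' := by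
    rintro x y ⟨hx, k, hk⟩ ⟨hy, l, hl⟩
    refine ⟨H.mul_mem hx hy, k + l, ?_⟩
    have hc : Commute x y := hH x hx y hy
    rw [hc.mul_pow, pow_add, pow_mul, hk, one_pow, one_mul, mul_comm, pow_mul, hl, one_pow]
  inv_mem' := by
    rintro x ⟨hx, k, hk⟩
    exact ⟨H.inv_mem hx, k, by rw [inv_pow, hk, inv_one]⟩

theorem mem_pPart {G : Type} [Group G] {H : Subgroup G} {hH : Ab H} {p : ℕ} {x : G} :
    x ∈ pPart H hH p ↔ x ∈ H ∧ ∃ k : ℕ, x ^ p ^ k = 1 := Iff.rfl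

theorem pPart_isPGroup {G : Type} [Group G] {H : Subgroup G} (hH : Ab H) (p : ℕ) :
    IsPGroup p (pPart H hH p) := by
  rintro ⟨x, hx⟩
  obtain ⟨_, k, hk⟩ := mem_pPart.1 hx
  exact ⟨k, Subtype.ext (by simpa using hk)⟩

theorem pPart_card {G : Type} [Group G] [Finite G] {H : Subgroup G} (hH : Ab H) (p : ℕ)
    (hp : p.Prime) : Nat.card (pPart H hH p) = p ^ (Nat.card H).factorization p := by
  have : Fact p.Prime := ⟨hp⟩
  obtain ⟨P⟩ : Nonempty (Sylow p H) := inferInstance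
  have hle : (P : Subgroup H).map H.subtype ≤ pPart H hH p := by
    rintro _ ⟨x, hx, rfl⟩
    obtain ⟨k, hk⟩ := P.isPGroup' ⟨x, hx⟩
    refine mem_pPart.2 ⟨x.2, k, ?_⟩
    have := congrArg (fun u : (P : Subgroup H) => ((u : H) : G)) hk
    simpa using this
  have h1 : p ^ (Nat.card H).factorization p ∣ Nat.card (pPart H hH p) := by
    have h2 : Nat.card ((P : Subgroup H).map H.subtype) = p ^ (Nat.card H).factorization p := by
      rw [Subgroup.card_map_of_injective H.subtype_injective, P.card_eq_multiplicity]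
    rw [← h2]
    exact Subgroup.card_dvd_of_le hle
  have h3 : pPart H hH p ≤ H := fun x hx => (mem_pPart.1 hx).1
  have h4 : Nat.card (pPart H hH p) ∣ Nat.card H := Subgroup.card_dvd_of_le h3
  obtain ⟨n, hn⟩ := IsPGroup.iff_card.1 (pPart_isPGroup hH p)
  refine Nat.dvd_antisymm ?_ h1
  rw [hn] at h4 ⊢
  exact (hp.pow_dvd_iff_dvd_ordProj Nat.card_pos.ne').1 h4

/-- no odd prime divides both `|A|` and `|B0|` -/
theorem pf_kg (hKEG : T_KEG) (hC2 : T_C2) (hC3 : T_C3) (hC4 : T_C4) : T_KG := by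
  intro G _ A B B0 hCE p hp hp2 hpA hpB
  have hfin : Finite G := hCE.fin
  have hpf : Fact p.Prime := ⟨hp⟩
  obtain ⟨⟨t, htB, ht0⟩, hcardB, hcard⟩ := hC4 G A B B0 hCE
  have hB0B : B0 ≤ B := hCE.two.1
  set X : Subgroup G := pPart A hCE.abA p with hX
  set Y : Subgroup G := pPart B0 hCE.abB p with hY
  have hXA : X ≤ A := fun x hx => (mem_pPart.1 hx).1
  have hYB0 : Y ≤ B0 := fun x hx => (mem_pPart.1 hx).1
  -- `B0` is normal in `B`
  have hB0n : ∀ b ∈ B, ∀ y ∈ B0, b * y * b⁻¹ ∈ B0 := by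
    intro b hb y hy
    by_cases hb0 : b ∈ B0
    · exact B0.mul_mem (B0.mul_mem hb0 hy) (B0.inv_mem hb0)
    · have h1 : b * y ∉ B0 := fun h => hb0 (by
        have := B0.mul_mem h (B0.inv_mem hy)
        rwa [mul_inv_cancel_right] at this)
      have h2 : b⁻¹ ∉ B0 := fun h => hb0 (by simpa using B0.inv_mem h)
      exact hCE.two.2 _ (B.mul_mem hb (hB0B hy)) _ (B.inv_mem hb) h1 h2
  have hYn : ∀ b ∈ B, ∀ y ∈ Y, b * y * b⁻¹ ∈ Y := by
    intro b hb y hy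
    obtain ⟨hy0, k, hk⟩ := mem_pPart.1 hy
    exact mem_pPart.2 ⟨hB0n b hb y hy0, k, by rw [conj_pow, hk, mul_one, mul_inv_cancel]⟩
  have hcX : Nat.card X = p ^ (Nat.card A).factorization p := pPart_card hCE.abA p hp
  have hcY : Nat.card Y = p ^ (Nat.card B0).factorization p := pPart_card hCE.abB p hp
  have hA0 : Nat.card A ≠ 0 := Nat.card_pos.ne'
  have hB00 : Nat.card B0 ≠ 0 := Nat.card_pos.ne'
  have hfac : (Nat.card G).factorization p =
      (Nat.card A).factorization p + (Nat.card B0).factorization p := by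
    rw [hcard, Nat.factorization_mul (by omega) hB00, Nat.factorization_mul (by omega) hA0]
    have h2 : (2 : ℕ).factorization p = 0 := by
      rw [Nat.factorization_eq_zero_iff]
      right; left
      intro h
      exact hp2 ((Nat.prime_dvd_prime_iff_eq hp Nat.prime_two).1 h)
    simp [h2]
  -- Sylow subgroups
  obtain ⟨S, hS⟩ := (pPart_isPGroup hCE.abA p).exists_le_sylow
  obtain ⟨S', hS'⟩ := (pPart_isPGroup hCE.abB p).exists_le_sylow
  obtain ⟨g0, hg0⟩ := MulAction.exists_smul_eq G S' S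
  have hYS : ∀ y ∈ Y, g0 * y * g0⁻¹ ∈ (S : Subgroup G) := by
    intro y hy
    rw [← hg0, Sylow.coe_subgroup_smul, Subgroup.mem_pointwise_smul_iff_inv_smul_mem]
    have h2 : (MulAut.conj g0)⁻¹ • (g0 * y * g0⁻¹) = y := by
      rw [← map_inv, MulAut.smul_def, MulAut.conj_apply]
      group
    rw [h2]
    exact hS' hy
  -- `S = X (g0 Y g0⁻¹)`
  have hSeq : ∀ s ∈ (S : Subgroup G), ∃ x ∈ X, ∃ y ∈ Y, s = x * (g0 * y * g0⁻¹) := by
    let f : X × Y → (S : Subgroup G) :=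
      fun u => ⟨u.1.1 * (g0 * u.2.1 * g0⁻¹), (S : Subgroup G).mul_mem (hS u.1.2) (hYS _ u.2.2)⟩
    have hinj : Function.Injective f := by
      rintro ⟨x, y⟩ ⟨x', y'⟩ h
      have h0 : x.1 * (g0 * y.1 * g0⁻¹) = x'.1 * (g0 * y'.1 * g0⁻¹) := congrArg Subtype.val h
      have h1 : x'.1⁻¹ * x.1 = g0 * (y'.1 * y.1⁻¹) * g0⁻¹ := by
        calc x'.1⁻¹ * x.1 = x'.1⁻¹ * (x.1 * (g0 * y.1 * g0⁻¹)) * (g0 * y.1⁻¹ * g0⁻¹) := by group
          _ = x'.1⁻¹ * (x'.1 * (g0 * y'.1 * g0⁻¹)) * (g0 * y.1⁻¹ * g0⁻¹) := by rw [h0]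
          _ = _ := by group
      have h2 := hC3 G A B B0 hCE g0 _ _ (A.mul_mem (A.inv_mem (hXA x'.2)) (hXA x.2))
        (hB0B (B0.mul_mem (hYB0 y'.2) (B0.inv_mem (hYB0 y.2)))) h1
      have h3 : x.1 = x'.1 := (inv_mul_eq_one.1 h2).symm
      rw [h3] at h0
      have h4 : y.1 = y'.1 := by
        have h5 := mul_left_cancel h0
        exact mul_left_cancel (mul_right_cancel h5)
      exact Prod.ext (Subtype.ext h3) (Subtype.ext h4)
    have hcardeq : Nat.card (X × Y) = Nat.card (S : Subgroup G) := by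
      rw [Nat.card_prod, hcX, hcY, S.card_eq_multiplicity, hfac, pow_add]
    have hbij := (Nat.bijective_iff_injective_and_card f).2 ⟨hinj, hcardeq⟩
    intro s hs
    obtain ⟨⟨x, y⟩, hxy⟩ := hbij.2 ⟨s, hs⟩
    exact ⟨x.1, x.2, y.1, y.2, (congrArg Subtype.val hxy).symm⟩
  have hcomm := hKEG G p hp X Y ?_ ?_
  · -- the end of the proof
    have hYbot : Y ≠ ⊥ := by
      intro h
      rw [h, Subgroup.card_bot] at hcY
      have h1 : (Nat.card B0).factorization p ≠ 0 :=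
        (hp.factorization_pos_of_dvd hB00 hpB).ne'
      have h2 := Nat.one_lt_pow h1 hp.one_lt
      omega
    have hXB : ∀ x ∈ X, x ∈ B := by
      intro x hx
      refine hC2 G A B B0 hCE Y hYbot (hYB0.trans hB0B) hYn x fun y hy => ?_
      rw [hcomm x hx y hy, mul_inv_cancel_right]
      exact hy
    have hXbot : X = ⊥ := by
      rw [Subgroup.eq_bot_iff_forall]
      intro x hx
      exact hC3 G A B B0 hCE 1 x x (hXA hx) (hXB x hx) (by simp)
    rw [hXbot, Subgroup.card_bot] at hcX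
    have h1 : (Nat.card A).factorization p ≠ 0 :=
      (hp.factorization_pos_of_dvd hA0 hpA).ne'
    have h2 := Nat.one_lt_pow h1 hp.one_lt
    omega
  · intro g
    obtain ⟨a, ha, b, hb, hg⟩ := hCE.fac g
    obtain ⟨a0, ha0, b0, hb0, hg0'⟩ := hCE.fac g0
    have hc : a * a0⁻¹ ∈ A := A.mul_mem ha (A.inv_mem ha0)
    refine ⟨(S : Subgroup G).map (MulAut.conj (a * a0⁻¹)).toMonoidHom,
      S.isPGroup'.map _, fun z => ?_⟩
    have hcx : ∀ x ∈ X, (a * a0⁻¹) * x * (a * a0⁻¹)⁻¹ = x := by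
      intro x hx
      rw [hCE.abA _ hc x (hXA hx), mul_inv_cancel_right]
    constructor
    · rintro ⟨s, hs, rfl⟩
      obtain ⟨x, hx, y, hy, rfl⟩ := hSeq s hs
      refine ⟨x, hx, b⁻¹ * (b0 * y * b0⁻¹) * b⁻¹⁻¹,
        hYn _ (B.inv_mem hb) _ (hYn b0 hb0 y hy), ?_⟩
      change (a * a0⁻¹) * (x * (g0 * y * g0⁻¹)) * (a * a0⁻¹)⁻¹ = _
      calc (a * a0⁻¹) * (x * (g0 * y * g0⁻¹)) * (a * a0⁻¹)⁻¹
          = ((a * a0⁻¹) * x * (a * a0⁻¹)⁻¹) * ((a * a0⁻¹) * (g0 * y * g0⁻¹) * (a * a0⁻¹)⁻¹) := by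
            group
        _ = x * ((a * a0⁻¹) * (g0 * y * g0⁻¹) * (a * a0⁻¹)⁻¹) := by rw [hcx x hx]
        _ = x * (g * (b⁻¹ * (b0 * y * b0⁻¹) * b⁻¹⁻¹) * g⁻¹) := by
            rw [hg, hg0']; group
    · rintro ⟨x, hx, y, hy, rfl⟩
      refine ⟨x * (g0 * (b0⁻¹ * (b * y * b⁻¹) * b0⁻¹⁻¹) * g0⁻¹), ?_, ?_⟩
      · exact (S : Subgroup G).mul_mem (hS hx)
          (hYS _ (hYn _ (B.inv_mem hb0) _ (hYn b hb y hy)))
      · change (a * a0⁻¹) * (x * (g0 * (b0⁻¹ * (b * y * b⁻¹) * b0⁻¹⁻¹) * g0⁻¹)) * (a * a0⁻¹)⁻¹ = _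
        calc (a * a0⁻¹) * (x * (g0 * (b0⁻¹ * (b * y * b⁻¹) * b0⁻¹⁻¹) * g0⁻¹)) * (a * a0⁻¹)⁻¹
            = ((a * a0⁻¹) * x * (a * a0⁻¹)⁻¹) *
              ((a * a0⁻¹) * (g0 * (b0⁻¹ * (b * y * b⁻¹) * b0⁻¹⁻¹) * g0⁻¹) * (a * a0⁻¹)⁻¹) := by
              group
          _ = x * ((a * a0⁻¹) * (g0 * (b0⁻¹ * (b * y * b⁻¹) * b0⁻¹⁻¹) * g0⁻¹) *
              (a * a0⁻¹)⁻¹) := by rw [hcx x hx]
          _ = x * (g * y * g⁻¹) := by rw [hg, hg0']; group
  · intro N hN hNp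
    have hnil : Group.IsNilpotent N := hNp.isNilpotent
    exact hCE.quo N hN inferInstance

end Pool.Agent.H14.FK
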