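import Pool.Agent.H84.FK.Targets

/-!
Module ODD of the board fk_modules: elements of odd prime order of a least counterexample.
-/

set_option autoImplicit false

namespace Pool.Agent.H14.FK

open Pool.Agent.H84.FK

/-- if `H` has the full power of `r` in its order then elements of order `r` are conjugate into
`H` -/
theorem conj_into {G : Type} [Group G] [Finite G] (H : Subgroup G) (r : ℕ) (hr : r.Prime)
    (hH : (Nat.card H).factorization r = (Nat.card G).factorization r) (x : G)
    (hx : orderOf x = r) : ∃ g : G, g * x * g⁻¹ ∈ H := by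
  have : Fact r.Prime := ⟨hr⟩
  obtain ⟨P⟩ : Nonempty (Sylow r H) := inferInstance
  have hcard : Nat.card ((P : Subgroup H).map H.subtype) =
      r ^ (Nat.card G).factorization r := by
    rw [Subgroup.card_map_of_injective H.subtype_injective, P.card_eq_multiplicity, hH]
  let S : Sylow r G := Sylow.ofCard _ hcard
  have hS : (S : Subgroup G) = (P : Subgroup H).map H.subtype := Sylow.coe_ofCard _ hcard
  have hz : IsPGroup r (Subgroup.zpowers x) := by
    refine IsPGroup.of_card (n := 1) ?_
    rw [Nat.card_zpowers, hx, pow_one]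
  obtain ⟨Q, hQ⟩ := hz.exists_le_sylow
  obtain ⟨g, hg⟩ := MulAction.exists_smul_eq G Q S
  refine ⟨g, ?_⟩
  have h1 : g * x * g⁻¹ ∈ (S : Subgroup G) := by
    rw [← hg, Sylow.coe_subgroup_smul, Subgroup.mem_pointwise_smul_iff_inv_smul_mem]
    have h2 : (MulAut.conj g)⁻¹ • (g * x * g⁻¹) = x := by
      rw [← map_inv, MulAut.smul_def, MulAut.conj_apply]
      group
    rw [h2]
    exact hQ (Subgroup.mem_zpowers x)
  rw [hS, Subgroup.mem_map] at h1
  obtain ⟨y, _, hy⟩ := h1
  rw [← hy]
  exact y.2

/-- elements of odd prime order are conjugate into `A` or `B0` -/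
theorem pf_odd (hKG : T_KG) (hC4 : T_C4) : T_ODD := by
  intro G _ A B B0 hCE x r hr hr2 hx
  have hfin : Finite G := hCE.fin
  have hcard := (hC4 G A B B0 hCE).2.2
  have hA0 : Nat.card A ≠ 0 := Nat.card_pos.ne'
  have hB0 : Nat.card B0 ≠ 0 := Nat.card_pos.ne'
  have hfac : (Nat.card G).factorization r =
      (Nat.card A).factorization r + (Nat.card B0).factorization r := by
    rw [hcard, Nat.factorization_mul (by omega) hB0, Nat.factorization_mul (by omega) hA0]
    have h2 : (2 : ℕ).factorization r = 0 := by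
      rw [Nat.factorization_eq_zero_iff]
      right; left
      intro h
      exact hr2 ((Nat.prime_dvd_prime_iff_eq hr Nat.prime_two).1 h)
    simp [h2]
  by_cases hA : r ∣ Nat.card A
  · have hB : ¬ r ∣ Nat.card B0 := fun h => hKG G A B B0 hCE r hr hr2 hA h
    obtain ⟨g, hg⟩ := conj_into A r hr (by
      rw [hfac, Nat.factorization_eq_zero_of_not_dvd hB, add_zero]) x hx
    exact ⟨g, Or.inl hg⟩
  · obtain ⟨g, hg⟩ := conj_into B0 r hr (by
      rw [hfac, Nat.factorization_eq_zero_of_not_dvd hA, zero_add]) x hx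
    exact ⟨g, Or.inr hg⟩

end Pool.Agent.H14.FK
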