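import Pool.Agent.H84.FK.Targets

/-!
Module T1 of the board fk_modules: type (i) is impossible.
-/

set_option autoImplicit false

namespace Pool.Agent.H14.FK

open Pool.Agent.H84.FK

/-- type (i) -/
theorem pf_t1 (hKG : T_KG) (hTA : T_TA) (hTB : T_TB) (hTC : T_TC) (hIDX : T_IDX) (hC1 : T_C1)
    (hC4 : T_C4) : T_T1 := by
  intro G _ A B B0 M hCE hOv hMB htt hex
  have hfin : Finite G := hCE.fin
  obtain ⟨⟨t, htB, ht0⟩, hcardB, hcard⟩ := hC4 G A B B0 hCE
  have hB0B : B0 ≤ B := hCE.two.1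
  set E : Subgroup G := M ⊓ B with hE
  have hEB0 : E ≤ B0 := fun x hx => hMB x hx.1 hx.2
  -- `B0` is normal in `B`
  have hB0n : ∀ b ∈ B, ∀ y ∈ B0, b * y * b⁻¹ ∈ B0 := by
    intro b hb y hy
    by_cases hb0 : b ∈ B0
    · exact B0.mul_mem (B0.mul_mem hb0 hy) (B0.inv_mem hb0)
    · have h1 : b * y ∉ B0 := fun h => hb0 (by
        have := B0.mul_mem h (B0.inv_mem hy)
        rwa [mul_inv_cancel_right] at this)
      have h2 : b⁻¹ ∉ B0 := fun h => hb0 (by simpa using B0.inv_mem h)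
      exact hCE.two.2 _ (B.mul_mem hb (hB0B hy)) _ (B.inv_mem hb) h1 h2
  have he1 : 1 < Nat.card E := by
    rw [Subgroup.one_lt_card_iff_ne_bot]
    intro h
    obtain ⟨x, hxM, hxB, hx1⟩ := hex
    have hx : x ∈ E := ⟨hxM, hxB⟩
    rw [h, Subgroup.mem_bot] at hx
    exact hx1 hx
  -- an element of prime order of `E` whose order does not divide `|A|`
  have key : ∀ r : ℕ, r.Prime → r ∣ Nat.card E → ¬ r ∣ Nat.card A := by
    intro r hr hre hrA
    have : Fact r.Prime := ⟨hr⟩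
    rcases eq_or_ne r 2 with h2 | h2
    · obtain ⟨x, hx⟩ := exists_prime_orderOf_dvd_card' r hre
      have hxx : x.1 * x.1 = 1 := by
        have h3 : x ^ 2 = 1 := by rw [← h2, ← hx]; exact pow_orderOf_eq_one x
        have h4 := congrArg Subtype.val h3
        simpa [pow_two] using h4
      have h5 := hTA G A B B0 M hCE hOv hMB htt (h2 ▸ hrA) x.1 x.2.1 x.2.2 hxx
      have h6 : x = 1 := Subtype.ext h5
      rw [h6, orderOf_one] at hx
      exact hr.one_lt.ne hx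
    · exact hKG G A B B0 hCE r hr h2 hrA (hre.trans (Subgroup.card_dvd_of_le hEB0))
  have hidx : M.index ≤ 4 := by
    obtain ⟨r, hr, hre⟩ := Nat.exists_prime_and_dvd he1.ne'
    have : Fact r.Prime := ⟨hr⟩
    obtain ⟨x, hx⟩ := exists_prime_orderOf_dvd_card' r hre
    exact hTC G A B B0 M hCE hOv hMB htt (hTB G A B B0 M hCE hOv hMB htt) x.1 r hr
      (by rw [← hx]; exact Subgroup.orderOf_coe x) (key r hr hre) x.2.1 x.2.2
  have hMfac : ∀ g ∈ M, ∃ a ∈ A, a ∈ M ∧ ∃ b ∈ B, b ∈ M ∧ g = a * b := by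
    intro g hg
    obtain ⟨a, ha, b, hb, hab⟩ := hCE.fac g
    refine ⟨a, ha, hOv.le ha, b, hb, ?_, hab⟩
    have : b = a⁻¹ * g := by rw [hab, inv_mul_cancel_left]
    rw [this]
    exact M.mul_mem (M.inv_mem (hOv.le ha)) hg
  have hcardM : Nat.card M ≤ Nat.card A * Nat.card E := by
    rw [← Nat.card_prod]
    let f : A × E → M := fun u => ⟨u.1.1 * u.2.1, M.mul_mem (hOv.le u.1.2) u.2.2.1⟩
    refine Nat.card_le_card_of_surjective f ?_
    intro g
    obtain ⟨a, ha, _, b, hb, hbM, hab⟩ := hMfac g.1 g.2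
    exact ⟨(⟨a, ha⟩, ⟨b, hbM, hb⟩), Subtype.ext hab.symm⟩
  have hE2 : Nat.card E * Nat.card E ≤ Nat.card B0 := by
    rw [← Nat.card_prod]
    let f : E × E → B0 := fun u => ⟨u.1.1 * (t * u.2.1 * t⁻¹),
      B0.mul_mem (hEB0 u.1.2) (hB0n t htB _ (hEB0 u.2.2))⟩
    refine Nat.card_le_card_of_injective f ?_
    rintro ⟨x, y⟩ ⟨x', y'⟩ h
    have h0 : x.1 * (t * y.1 * t⁻¹) = x'.1 * (t * y'.1 * t⁻¹) := congrArg Subtype.val h
    have h1 : t * (y'.1 * y.1⁻¹) * t⁻¹ = x'.1⁻¹ * x.1 := by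
      symm
      calc x'.1⁻¹ * x.1 = x'.1⁻¹ * (x.1 * (t * y.1 * t⁻¹)) * (t * y.1⁻¹ * t⁻¹) := by group
        _ = x'.1⁻¹ * (x'.1 * (t * y'.1 * t⁻¹)) * (t * y.1⁻¹ * t⁻¹) := by rw [h0]
        _ = _ := by group
    have h2 : t * (y'.1 * y.1⁻¹) * t⁻¹ ∈ M := by
      rw [h1]
      exact M.mul_mem (M.inv_mem x'.2.1) x.2.1
    have h3 := htt t htB ht0 (y'.1 * y.1⁻¹) (M.mul_mem y'.2.1 (M.inv_mem y.2.1))
      (B.mul_mem y'.2.2 (B.inv_mem y.2.2)) h2
    have h4 : y.1 = y'.1 := (mul_inv_eq_one.1 h3).symm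
    rw [h4] at h0
    have h5 : x.1 = x'.1 := mul_right_cancel h0
    exact Prod.ext (Subtype.ext h5) (Subtype.ext h4)
  have hA1 : 0 < Nat.card A := Nat.card_pos
  have hGM : Nat.card M * M.index = Nat.card G := Subgroup.card_mul_index M
  -- `e = 2`, `b = 4`
  have hb2 : Nat.card B0 ≤ 2 * Nat.card E := by
    have h1 : Nat.card G ≤ Nat.card A * Nat.card E * 4 := by
      rw [← hGM]
      exact Nat.mul_le_mul hcardM hidx
    rw [hcard] at h1
    have h2 : Nat.card A * (2 * Nat.card B0) ≤ Nat.card A * (4 * Nat.card E) := by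
      calc Nat.card A * (2 * Nat.card B0) = 2 * Nat.card A * Nat.card B0 := by ring
        _ ≤ _ := h1
        _ = _ := by ring
    have h3 := Nat.le_of_mul_le_mul_left h2 hA1
    omega
  have he2 : Nat.card E = 2 := by nlinarith
  have hb4 : Nat.card B0 = 4 := by
    rw [he2] at hE2 hb2
    omega
  have hG8 : Nat.card G = 8 * Nat.card A := by rw [hcard, hb4]; ring
  have hMs : Group.IsSolvable M := hCE.sub M hOv.ne hMfac
  have hd1 : Nat.card G ∣ M.index.factorial := hIDX G A B B0 hCE M hOv.ne hMs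
  have hA3 : Nat.card A ≤ 3 := by
    have h1 : Nat.card G ∣ 24 := by
      have h2 : M.index.factorial ∣ (4 : ℕ).factorial := Nat.factorial_dvd_factorial hidx
      exact hd1.trans h2
    rw [hG8] at h1
    have h2 := Nat.le_of_dvd (by norm_num) h1
    omega
  have hBne : B ≠ ⊤ := (hC1 G A B B0 hCE).1
  have hBs : Group.IsSolvable B := hCE.sub B hBne
    fun g hg => ⟨1, A.one_mem, B.one_mem, g, hg, hg, by rw [one_mul]⟩
  have hd2 : Nat.card G ∣ B.index.factorial := hIDX G A B B0 hCE B hBne hBs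
  have hBi : B.index = Nat.card A := by
    have h1 : Nat.card B * B.index = Nat.card G := Subgroup.card_mul_index B
    rw [hG8, hcardB, hb4] at h1
    omega
  have h3 : Nat.card G ≤ 6 := by
    have h4 : B.index.factorial ≤ (3 : ℕ).factorial := Nat.factorial_le (by omega)
    exact (Nat.le_of_dvd (Nat.factorial_pos _) hd2).trans h4
  omega

end Pool.Agent.H14.FK
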